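import Pool.Agent.H91.AV.Targets

/-! # Adaptive linear programs: the abstract counting argument (row ABS) -/

namespace Pool.Agent.H33.AV

open Finset Pool.Agent.H91.AV

theorem aa_gen (hFam : S_FAM) (X Y C : Type) [Fintype X] [Fintype Y] [Fintype C] (K : Y → X → ℝ)
    (ka : ℝ) (r : ℕ) (inF : Y → C → Prop) (sat : C → X → Prop) (hr : 1 ≤ r)
    (hka : 0 ≤ ka) (hK : ∀ a, ∑ x, K a x = Fintype.card X)
    (hT1 : ∀ g : X → ℝ, (∀ x, 0 ≤ g x) → ∃ T : Y → ℝ, (∀ a, 0 ≤ T a) ∧
      (∀ a, -(T a) ≤ ∑ x, g x * K a x) ∧ ∑ a, T a ^ (2 * r) ≤ ka * (∑ x, g x ^ 2) ^ r)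
    (hT2 : ∀ (c : C) (g : X → ℝ), (∀ x, 0 ≤ g x) → (∀ x, g x ≠ 0 → ¬ sat c x) → ∃ T : Y → ℝ,
      (∀ a, 0 ≤ T a) ∧ (∀ a, inF a c → |∑ x, g x * K a x| ≤ T a) ∧
      ∑ a, T a ^ (2 * r) ≤ ka * (∑ x, g x ^ 2) ^ r)
    (M : ℕ) (A : Finset Y) (J : Y → Finset (Fin M)) (cell : Fin M → Set X)
    (β : Fin M → Type) [∀ j, Fintype (β j)] (hβ : ∀ j, 1 ≤ Fintype.card (β j))
    (sl : (j : Fin M) → β j → X → ℝ) (lam : Y → (j : Fin M) → β j → ℝ)
    (ls : Fin M → C → X → ℝ) (de S : ℝ) (F : Y → Finset C)
    (hde : 0 < de) (hS : 0 ≤ S) (hF : ∀ a c, c ∈ F a ↔ inF a c)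
    (hcov : ∀ a ∈ A, ∀ x, ∃ j ∈ J a, x ∈ cell j)
    (hdis : ∀ a ∈ A, ∀ j ∈ J a, ∀ j' ∈ J a, j ≠ j' → Disjoint (cell j) (cell j'))
    (hsl : ∀ j i, ∀ x ∈ cell j, 0 ≤ sl j i x) (hlam : ∀ a j i, 0 ≤ lam a j i)
    (hls1 : ∀ j c, ∀ x ∈ cell j, |ls j c x| ≤ 1)
    (hls0 : ∀ j c, ∀ x ∈ cell j, sat c x → ls j c x ≤ 0)
    (heq : ∀ a ∈ A, ∀ j ∈ J a, ∀ x ∈ cell j,
        ∑ c ∈ F a, ls j c x - de = ∑ i, lam a j i * sl j i x)
    (hSz : ∀ a ∈ A, ∑ j ∈ J a, (Fintype.card (β j) : ℝ) ≤ S) :
    de ^ (2 * r) * A.card * (Fintype.card X : ℝ) ^ r ≤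
      4 * (Fintype.card C : ℝ) ^ 2 * ka * (∑ j, (Fintype.card (β j) : ℝ)) *
        (24 * (Fintype.card C : ℝ) ^ 2 * S) ^ r := by
  classical
  rcases A.eq_empty_or_nonempty with hA | ⟨a0, ha0⟩
  · have : ((A.card : ℕ) : ℝ) = 0 := by rw [hA]; simp
    rw [this, mul_zero, zero_mul]
    positivity
  rcases isEmpty_or_nonempty X with hX | hX
  · have : ((Fintype.card X : ℕ) : ℝ) = 0 := by simp
    rw [this, zero_pow (by omega), mul_zero]
    positivity
  obtain ⟨x0⟩ := hX
  obtain ⟨j0, hj0, hx0⟩ := hcov a0 ha0 x0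
  obtain ⟨m0, hm0⟩ : ∃ m0 : ℝ, m0 = Fintype.card C := ⟨_, rfl⟩
  obtain ⟨W0, hW0⟩ : ∃ W0 : ℝ, W0 = ∑ j, (Fintype.card (β j) : ℝ) := ⟨_, rfl⟩
  rw [← hm0, ← hW0]
  have hβr : ∀ j, (1 : ℝ) ≤ Fintype.card (β j) := fun j => by exact_mod_cast hβ j
  have hm1 : 1 ≤ m0 := by
    have h1 : Fintype.card C ≠ 0 := by
      intro h0
      have hE : IsEmpty C := Fintype.card_eq_zero_iff.1 h0
      have h2 : F a0 = ∅ := Finset.eq_empty_of_isEmpty _
      have h3 := heq a0 ha0 j0 hj0 x0 hx0
      rw [h2, Finset.sum_empty] at h3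
      have h4 : 0 ≤ ∑ i, lam a0 j0 i * sl j0 i x0 :=
        Finset.sum_nonneg fun i _ => mul_nonneg (hlam _ _ _) (hsl _ _ _ hx0)
      linarith
    rw [hm0]
    exact_mod_cast Nat.one_le_iff_ne_zero.2 h1
  have hS1 : 1 ≤ S := by
    refine le_trans ?_ (hSz a0 ha0)
    refine le_trans (hβr j0) ?_
    exact Finset.single_le_sum (f := fun j => (Fintype.card (β j) : ℝ))
      (fun j _ => by positivity) hj0
  have hMW : (M : ℝ) ≤ W0 := by
    calc (M : ℝ) = ∑ j : Fin M, (1 : ℝ) := by simp
      _ ≤ W0 := by rw [hW0]; exact Finset.sum_le_sum fun j _ => hβr j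
  have hM1 : (1 : ℝ) ≤ M := by
    have : 0 < M := Fin.pos j0
    exact_mod_cast this
  have hW1 : 1 ≤ W0 := hM1.trans hMW
  -- indicators
  set ind : Fin M → X → ℝ := fun j x => if x ∈ cell j then 1 else 0 with hind
  set sel : Y → Fin M → ℝ := fun a j => if a ∈ A ∧ j ∈ J a then 1 else 0 with hsel
  set inn : Y → C → ℝ := fun a c => if inF a c then 1 else 0 with hinn
  have ind0 : ∀ j x, 0 ≤ ind j x := fun j x => by
    simp only [hind]; split_ifs <;> norm_num
  have ind1 : ∀ j x, ind j x ≤ 1 := fun j x => by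
    simp only [hind]; split_ifs <;> norm_num
  have sel0 : ∀ a j, 0 ≤ sel a j := fun a j => by
    simp only [hsel]; split_ifs <;> norm_num
  have sel1 : ∀ a j, sel a j ≤ 1 := fun a j => by
    simp only [hsel]; split_ifs <;> norm_num
  have inn0 : ∀ a c, 0 ≤ inn a c := fun a c => by
    simp only [hinn]; split_ifs <;> norm_num
  have inn1 : ∀ a c, inn a c ≤ 1 := fun a c => by
    simp only [hinn]; split_ifs <;> norm_num
  have selA : ∀ a j, a ∉ A → sel a j = 0 := fun a j ha => by
    simp only [hsel]; rw [if_neg (fun h => ha h.1)]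
  -- the partition
  have hE1 : ∀ a x, ∑ j, sel a j * ind j x = if a ∈ A then 1 else 0 := by
    intro a x
    by_cases ha : a ∈ A
    · obtain ⟨j0, hj0, hx0⟩ := hcov a ha x
      rw [if_pos ha, Finset.sum_eq_single j0]
      · simp only [hsel, hind]
        rw [if_pos ⟨ha, hj0⟩, if_pos hx0, one_mul]
      · intro j _ hj
        simp only [hsel, hind]
        by_cases hjJ : j ∈ J a
        · have hd := hdis a ha j hjJ j0 hj0 hj
          have hx : x ∉ cell j := fun hx => Set.disjoint_left.1 hd hx hx0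
          rw [if_neg hx, mul_zero]
        · rw [if_neg (fun h => hjJ h.2), zero_mul]
      · intro h
        exact absurd (Finset.mem_univ _) h
    · rw [if_neg ha]
      exact Finset.sum_eq_zero fun j _ => by rw [selA a j ha, zero_mul]
  have hE1le : ∀ a x, ∑ j, sel a j * ind j x ≤ 1 := by
    intro a x
    rw [hE1]
    split_ifs <;> norm_num
  have hselS : ∀ a, ∑ j, sel a j * (Fintype.card (β j) : ℝ) ≤ S := by
    intro a
    by_cases ha : a ∈ A
    · calc ∑ j, sel a j * (Fintype.card (β j) : ℝ)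
          = ∑ j ∈ J a, (Fintype.card (β j) : ℝ) := by
            rw [← Finset.sum_filter_add_sum_filter_not univ (fun j => j ∈ J a)]
            have h1 : ∑ j ∈ univ.filter (fun j => ¬ j ∈ J a),
                sel a j * (Fintype.card (β j) : ℝ) = 0 := by
              refine Finset.sum_eq_zero fun j hj => ?_
              have : sel a j = 0 := by
                simp only [hsel]
                rw [if_neg (fun h => (Finset.mem_filter.1 hj).2 h.2)]
              rw [this, zero_mul]
            rw [h1, add_zero]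
            have h2 : univ.filter (fun j => j ∈ J a) = J a := by ext j; simp
            rw [h2]
            refine Finset.sum_congr rfl fun j hj => ?_
            have : sel a j = 1 := by
              simp only [hsel]
              rw [if_pos ⟨ha, hj⟩]
            rw [this, one_mul]
        _ ≤ S := hSz a ha
    · have h1 : ∑ j, sel a j * (Fintype.card (β j) : ℝ) = 0 :=
        Finset.sum_eq_zero fun j _ => by rw [selA a j ha, zero_mul]
      rw [h1]
      exact hS
  have hFs : ∀ a j x, ∑ c ∈ F a, ls j c x = ∑ c, inn a c * ls j c x := by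
    intro a j x
    have h1 : F a = univ.filter (fun c => inF a c) := by
      ext c
      simp [hF a c]
    rw [h1, Finset.sum_filter]
    refine Finset.sum_congr rfl fun c _ => ?_
    simp only [hinn]
    split_ifs <;> simp
  have hinnC : ∀ a, ∑ c, inn a c ≤ m0 := by
    intro a
    calc ∑ c, inn a c ≤ ∑ c : C, (1 : ℝ) := Finset.sum_le_sum fun c _ => inn1 a c
      _ = m0 := by rw [hm0]; simp
  have hE2 : ∀ a j x, sel a j * ind j x * de =
      ∑ c, sel a j * inn a c * (ind j x * ls j c x) -
        ∑ o, sel a j * lam a j o * (ind j x * sl j o x) := by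
    intro a j x
    have h1 : ∑ c, sel a j * inn a c * (ind j x * ls j c x) =
        sel a j * ind j x * ∑ c ∈ F a, ls j c x := by
      rw [hFs, Finset.mul_sum]
      exact Finset.sum_congr rfl fun c _ => by ring
    have h2 : ∑ o, sel a j * lam a j o * (ind j x * sl j o x) =
        sel a j * ind j x * ∑ o, lam a j o * sl j o x := by
      rw [Finset.mul_sum]
      exact Finset.sum_congr rfl fun c _ => by ring
    rw [h1, h2]
    by_cases hs : a ∈ A ∧ j ∈ J a
    · by_cases hx : x ∈ cell j
      · rw [← heq a hs.1 j hs.2 x hx]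
        ring
      · have : ind j x = 0 := by simp only [hind]; rw [if_neg hx]
        rw [this]; ring
    · have : sel a j = 0 := by simp only [hsel]; rw [if_neg hs]
      rw [this]; ring
  have hsum : ∀ a j x, ∑ o, sel a j * lam a j o * (ind j x * sl j o x) ≤
      sel a j * ind j x * m0 := by
    intro a j x
    by_cases hs : a ∈ A ∧ j ∈ J a
    · by_cases hx : x ∈ cell j
      · have h1 : sel a j = 1 := by simp only [hsel]; rw [if_pos hs]
        have h2 : ind j x = 1 := by simp only [hind]; rw [if_pos hx]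
        have h3 : ∑ o, sel a j * lam a j o * (ind j x * sl j o x) =
            ∑ o, lam a j o * sl j o x :=
          Finset.sum_congr rfl fun o _ => by rw [h1, h2]; ring
        rw [h3, h1, h2, ← heq a hs.1 j hs.2 x hx]
        have h4 : ∑ c ∈ F a, ls j c x ≤ m0 := by
          calc ∑ c ∈ F a, ls j c x ≤ ∑ c ∈ F a, (1 : ℝ) :=
                Finset.sum_le_sum fun c _ => (le_abs_self _).trans (hls1 j c x hx)
            _ = (F a).card := by simp
            _ ≤ m0 := by rw [hm0]; exact_mod_cast Finset.card_le_univ _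
        linarith
      · have h2 : ind j x = 0 := by simp only [hind]; rw [if_neg hx]
        rw [h2]
        simp
    · have h1 : sel a j = 0 := by simp only [hsel]; rw [if_neg hs]
      rw [h1]
      simp
  have indsl : ∀ j o x, 0 ≤ ind j x * sl j o x := by
    intro j o x
    by_cases hx : x ∈ cell j
    · exact mul_nonneg (ind0 j x) (hsl j o x hx)
    · have h2 : ind j x = 0 := by simp only [hind]; rw [if_neg hx]
      rw [h2, zero_mul]
  have sellam : ∀ a j o, 0 ≤ sel a j * lam a j o := fun a j o =>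
    mul_nonneg (sel0 a j) (hlam a j o)
  have hone : ∀ a j o x, sel a j * lam a j o * (ind j x * sl j o x) ≤ sel a j * m0 := by
    intro a j o x
    have h1 : sel a j * lam a j o * (ind j x * sl j o x) ≤
        ∑ o, sel a j * lam a j o * (ind j x * sl j o x) :=
      Finset.single_le_sum (f := fun o => sel a j * lam a j o * (ind j x * sl j o x))
        (fun o _ => mul_nonneg (sellam a j o) (indsl j o x)) (Finset.mem_univ o)
    have h2 : sel a j * ind j x * m0 ≤ sel a j * 1 * m0 := by
      refine mul_le_mul_of_nonneg_right ?_ (by linarith)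
      exact mul_le_mul_of_nonneg_left (ind1 j x) (sel0 a j)
    have := hsum a j x
    linarith
  -- slack terms
  set g0 : (Σ j, β j) → X → ℝ := fun p x => ind p.1 x * sl p.1 p.2 x with hg0
  have g00 : ∀ p x, 0 ≤ g0 p x := fun p x => indsl p.1 p.2 x
  have hmax : ∀ p, ∃ xs, ∀ x, g0 p x ≤ g0 p xs := fun p => by
    have : Nonempty X := ⟨x0⟩
    exact Finite.exists_max (g0 p)
  choose xs hxs using hmax
  set gs : (Σ j, β j) → X → ℝ := fun p x => g0 p x / g0 p (xs p) with hgs
  set fs : (Σ j, β j) → Y → ℝ := fun p a => sel a p.1 * lam a p.1 p.2 * g0 p (xs p) with hfs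
  have gs0 : ∀ p x, 0 ≤ gs p x := fun p x => div_nonneg (g00 p x) (g00 p _)
  have gs1 : ∀ p x, gs p x ≤ 1 := fun p x => div_le_one_of_le₀ (hxs p x) (g00 p _)
  have fs0 : ∀ p a, 0 ≤ fs p a := fun p a => mul_nonneg (sellam a _ _) (g00 p _)
  have fs1 : ∀ p a, fs p a ≤ sel a p.1 * m0 := fun p a => hone a p.1 p.2 (xs p)
  have hfg : ∀ p a x, fs p a * gs p x = sel a p.1 * lam a p.1 p.2 * g0 p x := by
    intro p a x
    show sel a p.1 * lam a p.1 p.2 * g0 p (xs p) * (g0 p x / g0 p (xs p)) = _
    rcases eq_or_ne (g0 p (xs p)) 0 with h | h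
    · have h1 : g0 p x = 0 := le_antisymm (h ▸ hxs p x) (g00 p x)
      rw [h1, h]
      simp
    · field_simp
  -- clause terms
  set f3 : (Fin M × C) → Y → ℝ := fun q a => sel a q.1 * inn a q.2 with hf3
  set g1 : (Fin M × C) → X → ℝ := fun q x =>
    if x ∈ cell q.1 ∧ sat q.2 x then -ls q.1 q.2 x else 0 with hg1
  set g2 : (Fin M × C) → X → ℝ := fun q x =>
    if x ∈ cell q.1 ∧ ¬ sat q.2 x then max (ls q.1 q.2 x) 0 else 0 with hg2
  set g3 : (Fin M × C) → X → ℝ := fun q x =>
    if x ∈ cell q.1 ∧ ¬ sat q.2 x then max (-ls q.1 q.2 x) 0 else 0 with hg3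
  have f30 : ∀ q a, 0 ≤ f3 q a := fun q a => mul_nonneg (sel0 _ _) (inn0 _ _)
  have f31 : ∀ q a, f3 q a ≤ 1 := fun q a => by
    calc sel a q.1 * inn a q.2 ≤ 1 * 1 :=
          mul_le_mul (sel1 _ _) (inn1 _ _) (inn0 _ _) zero_le_one
      _ = 1 := one_mul 1
  have g1p : ∀ q x, 0 ≤ g1 q x := by
    intro q x
    simp only [hg1]
    by_cases hx : x ∈ cell q.1 ∧ sat q.2 x
    · rw [if_pos hx]
      have := hls0 q.1 q.2 x hx.1 hx.2
      linarith
    · rw [if_neg hx]
  have g2p : ∀ q x, 0 ≤ g2 q x := by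
    intro q x
    simp only [hg2]
    split_ifs
    · exact le_max_right _ _
    · exact le_rfl
  have g3p : ∀ q x, 0 ≤ g3 q x := by
    intro q x
    simp only [hg3]
    split_ifs
    · exact le_max_right _ _
    · exact le_rfl
  have gsum : ∀ q x, g1 q x + g2 q x + g3 q x ≤ ind q.1 x := by
    intro q x
    simp only [hg1, hg2, hg3, hind]
    by_cases hx : x ∈ cell q.1
    · have h1 := abs_le.1 (hls1 q.1 q.2 x hx)
      by_cases hs : sat q.2 x
      · simp only [hx, hs, true_and, if_true, not_true_eq_false, if_false]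
        linarith
      · simp only [hx, hs, true_and, if_true, not_false_eq_true, if_false]
        rcases le_total 0 (ls q.1 q.2 x) with h | h
        · rw [max_eq_left h, max_eq_right (by linarith)]; linarith
        · rw [max_eq_right h, max_eq_left (by linarith)]; linarith
    · simp [hx]
  have g1le : ∀ q x, g1 q x ≤ 1 := fun q x => by
    have := gsum q x; have := g2p q x; have := g3p q x; have := ind1 q.1 x; linarith
  have g2le : ∀ q x, g2 q x ≤ 1 := fun q x => by
    have := gsum q x; have := g1p q x; have := g3p q x; have := ind1 q.1 x; linarith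
  have g3le : ∀ q x, g3 q x ≤ 1 := fun q x => by
    have := gsum q x; have := g2p q x; have := g1p q x; have := ind1 q.1 x; linarith
  have gid : ∀ q x, ind q.1 x * ls q.1 q.2 x = -g1 q x + g2 q x - g3 q x := by
    intro q x
    simp only [hind, hg1, hg2, hg3]
    by_cases hx : x ∈ cell q.1
    · by_cases hs : sat q.2 x
      · simp [hx, hs]
      · simp only [hx, hs, true_and, if_true, not_false_eq_true, if_false]
        rcases le_total 0 (ls q.1 q.2 x) with h | h
        · rw [max_eq_left h, max_eq_right (by linarith)]; ring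
        · rw [max_eq_right h, max_eq_left (by linarith)]; ring
    · simp [hx]
  have hTs := fun p => hT1 (gs p) (gs0 p)
  choose Ts Ts0 Ts1 Ts2 using hTs
  have hTa := fun q => hT1 (g1 q) (g1p q)
  choose Ta Ta0 Ta1 Ta2 using hTa
  have hTb := fun q => hT2 q.2 (g2 q) (g2p q) (by
      intro x hx
      by_contra hc
      apply hx
      simp only [hg2]
      rw [if_neg (fun h => h.2 hc)])
  choose Tb Tb0 Tb1 Tb2 using hTb
  have hTc := fun q => hT2 q.2 (g3 q) (g3p q) (by
      intro x hx
      by_contra hc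
      apply hx
      simp only [hg3]
      rw [if_neg (fun h => h.2 hc)])
  choose Tc Tc0 Tc1 Tc2 using hTc
  -- the inequality for each formula
  have hkey : ∀ a, (if a ∈ A then (1 : ℝ) else 0) * (de * Fintype.card X) ≤
      ∑ p, fs p a * Ts p a + (∑ q, f3 q a * Ta q a + (∑ q, f3 q a * Tb q a +
        ∑ q, f3 q a * Tc q a)) := by
    intro a
    have h2 : ∀ x, (if a ∈ A then (1 : ℝ) else 0) * (de * K a x) =
        ∑ q, f3 q a * (ind q.1 x * ls q.1 q.2 x * K a x) -
          ∑ p, fs p a * (gs p x * K a x) := by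
      intro x
      rw [Fintype.sum_prod_type, Fintype.sum_sigma, ← Finset.sum_sub_distrib, ← hE1 a x,
        Finset.sum_mul]
      refine Finset.sum_congr rfl fun j _ => ?_
      have e1 : ∑ o, fs ⟨j, o⟩ a * (gs ⟨j, o⟩ x * K a x) =
          (∑ o, sel a j * lam a j o * (ind j x * sl j o x)) * K a x := by
        rw [Finset.sum_mul]
        refine Finset.sum_congr rfl fun o _ => ?_
        rw [← mul_assoc, hfg]
      have e2 : ∑ c, f3 (j, c) a * (ind j x * ls j c x * K a x) =
          (∑ c, sel a j * inn a c * (ind j x * ls j c x)) * K a x := by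
        rw [Finset.sum_mul]
        refine Finset.sum_congr rfl fun o _ => ?_
        show sel a j * inn a o * (ind j x * ls j o x * K a x) = _
        ring
      have e3 : sel a j * ind j x * (de * K a x) = (sel a j * ind j x * de) * K a x := by ring
      rw [e3, hE2 a j x]
      show _ = (∑ c, f3 (j, c) a * (ind j x * ls j c x * K a x)) -
        ∑ o, fs ⟨j, o⟩ a * (gs ⟨j, o⟩ x * K a x)
      rw [e1, e2]
      ring
    have h3 : (if a ∈ A then (1 : ℝ) else 0) * (de * Fintype.card X) =
        ∑ q, f3 q a * (∑ x, ind q.1 x * ls q.1 q.2 x * K a x) -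
          ∑ p, fs p a * (∑ x, gs p x * K a x) := by
      rw [← hK a, Finset.mul_sum, Finset.mul_sum, Finset.sum_congr rfl fun x _ => h2 x,
        Finset.sum_sub_distrib, Finset.sum_comm,
        Finset.sum_comm (f := fun x p => fs p a * (gs p x * K a x))]
      congr 1
      · exact Finset.sum_congr rfl fun q _ => (Finset.mul_sum _ _ _).symm
      · exact Finset.sum_congr rfl fun q _ => (Finset.mul_sum _ _ _).symm
    have h4 : ∀ q, f3 q a * (∑ x, ind q.1 x * ls q.1 q.2 x * K a x) ≤
        f3 q a * Ta q a + (f3 q a * Tb q a + f3 q a * Tc q a) := by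
      intro q
      by_cases hi : inF a q.2
      · have e1 : ∑ x, ind q.1 x * ls q.1 q.2 x * K a x =
            -(∑ x, g1 q x * K a x) + (∑ x, g2 q x * K a x) - ∑ x, g3 q x * K a x := by
          rw [← Finset.sum_neg_distrib, ← Finset.sum_add_distrib, ← Finset.sum_sub_distrib]
          refine Finset.sum_congr rfl fun x _ => ?_
          rw [gid]
          ring
        have e2 := Ta1 q a
        have e3 := (abs_le.1 (Tb1 q a hi)).2
        have e4 := (abs_le.1 (Tc1 q a hi)).1
        rw [← mul_add, ← mul_add]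
        refine mul_le_mul_of_nonneg_left ?_ (f30 q a)
        rw [e1]
        linarith
      · have : f3 q a = 0 := by
          show sel a q.1 * inn a q.2 = 0
          simp only [hinn]
          rw [if_neg hi, mul_zero]
        rw [this]
        simp
    have h5 : ∀ p, -(fs p a * (∑ x, gs p x * K a x)) ≤ fs p a * Ts p a := by
      intro p
      have := mul_le_mul_of_nonneg_left (Ts1 p a) (fs0 p a)
      linarith
    have h6 := Finset.sum_le_sum (s := univ) fun q _ => h4 q
    have h7 := Finset.sum_le_sum (s := univ) fun p _ => h5 p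
    rw [Finset.sum_add_distrib, Finset.sum_add_distrib] at h6
    rw [Finset.sum_neg_distrib] at h7
    rw [h3]
    linarith
  -- the family
  have htot : de * (A.card * Fintype.card X) ≤
      ∑ i : ((Σ j, β j) ⊕ ((Fin M × C) ⊕ ((Fin M × C) ⊕ (Fin M × C)))), ∑ a,
        (Sum.elim fs (Sum.elim f3 (Sum.elim f3 f3)) : _ → Y → ℝ) i a *
          (Sum.elim Ts (Sum.elim Ta (Sum.elim Tb Tc)) : _ → Y → ℝ) i a := by
    rw [Finset.sum_comm]
    have h1 : de * (A.card * Fintype.card X) =
        ∑ a : Y, (if a ∈ A then (1 : ℝ) else 0) * (de * Fintype.card X) := by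
      rw [← Finset.sum_mul]
      have h2 : ∑ a : Y, (if a ∈ A then (1 : ℝ) else 0) = A.card := by simp
      rw [h2]
      ring
    rw [h1]
    refine Finset.sum_le_sum fun a _ => ?_
    rw [Fintype.sum_sum_type, Fintype.sum_sum_type, Fintype.sum_sum_type]
    exact hkey a
  have hWt : (Fintype.card ((Σ j, β j) ⊕ ((Fin M × C) ⊕ ((Fin M × C) ⊕ (Fin M × C)))) : ℝ) ≤
      4 * m0 * W0 := by
    rw [Fintype.card_sum, Fintype.card_sum, Fintype.card_sum, Fintype.card_sigma,
      Fintype.card_prod, Fintype.card_fin]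
    push_cast
    rw [← hm0, ← hW0]
    have e1 : (M : ℝ) * m0 ≤ W0 * m0 := mul_le_mul_of_nonneg_right hMW (by linarith)
    have e2 : W0 * 1 ≤ W0 * m0 := mul_le_mul_of_nonneg_left hm1 (by linarith)
    linarith
  have hf3sum : ∀ a, ∑ q, f3 q a ≤ m0 * S := by
    intro a
    have h1 : ∑ q, f3 q a = (∑ j, sel a j) * ∑ c, inn a c := by
      rw [Fintype.sum_prod_type, Finset.sum_mul_sum]
    have h2 : ∑ j, sel a j ≤ S := by
      refine le_trans (Finset.sum_le_sum fun j _ => ?_) (hselS a)
      calc sel a j = sel a j * 1 := (mul_one _).symm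
        _ ≤ sel a j * (Fintype.card (β j) : ℝ) := mul_le_mul_of_nonneg_left (hβr j) (sel0 a j)
    rw [h1, mul_comm m0]
    exact mul_le_mul h2 (hinnC a) (Finset.sum_nonneg fun c _ => inn0 a c) hS
  have hfssum : ∀ a, ∑ p, fs p a ≤ m0 * S := by
    intro a
    calc ∑ p, fs p a ≤ ∑ p : (Σ j, β j), sel a p.1 * m0 := Finset.sum_le_sum fun p _ => fs1 p a
      _ = m0 * ∑ j, sel a j * (Fintype.card (β j) : ℝ) := by
          rw [Fintype.sum_sigma, Finset.mul_sum]
          refine Finset.sum_congr rfl fun j _ => ?_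
          show ∑ _o : β j, sel a j * m0 = _
          rw [Finset.sum_const, Finset.card_univ, nsmul_eq_mul]
          ring
      _ ≤ m0 * S := mul_le_mul_of_nonneg_left (hselS a) (by linarith)
  have hfgs : ∀ a x, ∑ p, fs p a * gs p x ≤ m0 := by
    intro a x
    calc ∑ p, fs p a * gs p x = ∑ j, ∑ o, sel a j * lam a j o * (ind j x * sl j o x) := by
          rw [Fintype.sum_sigma]
          exact Finset.sum_congr rfl fun j _ => Finset.sum_congr rfl fun o _ => hfg _ _ _
      _ ≤ ∑ j, sel a j * ind j x * m0 := Finset.sum_le_sum fun j _ => hsum a j x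
      _ = (∑ j, sel a j * ind j x) * m0 := by rw [Finset.sum_mul]
      _ ≤ 1 * m0 := mul_le_mul_of_nonneg_right (hE1le a x) (by linarith)
      _ = m0 := one_mul _
  have hfg3 : ∀ a x, ∑ q, f3 q a * g1 q x + (∑ q, f3 q a * g2 q x + ∑ q, f3 q a * g3 q x) ≤
      m0 := by
    intro a x
    rw [← Finset.sum_add_distrib, ← Finset.sum_add_distrib]
    calc ∑ q, (f3 q a * g1 q x + (f3 q a * g2 q x + f3 q a * g3 q x))
        ≤ ∑ q : Fin M × C, sel a q.1 * inn a q.2 * ind q.1 x := by
          refine Finset.sum_le_sum fun q _ => ?_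
          have := mul_le_mul_of_nonneg_left (gsum q x) (f30 q a)
          calc f3 q a * g1 q x + (f3 q a * g2 q x + f3 q a * g3 q x)
              = f3 q a * (g1 q x + g2 q x + g3 q x) := by ring
            _ ≤ f3 q a * ind q.1 x := this
      _ = (∑ j, sel a j * ind j x) * ∑ c, inn a c := by
          rw [Fintype.sum_prod_type, Finset.sum_mul_sum]
          exact Finset.sum_congr rfl fun j _ => Finset.sum_congr rfl fun c _ => by ring
      _ ≤ 1 * m0 := mul_le_mul (hE1le a x) (hinnC a)
          (Finset.sum_nonneg fun c _ => inn0 a c) zero_le_one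
      _ = m0 := one_mul _
  have hfam := hFam X Y ((Σ j, β j) ⊕ ((Fin M × C) ⊕ ((Fin M × C) ⊕ (Fin M × C)))) r
    (Sum.elim fs (Sum.elim f3 (Sum.elim f3 f3))) (Sum.elim Ts (Sum.elim Ta (Sum.elim Tb Tc)))
    (Sum.elim gs (Sum.elim g1 (Sum.elim g2 g3))) m0 ka (4 * m0 * W0) (4 * m0 * S) A hr hm1 hka
    (by positivity) (by nlinarith)
    (by
      rintro (p | q | q | q) a
      · exact fs0 p a
      · exact f30 q a
      · exact f30 q a
      · exact f30 q a)
    (by
      rintro (p | q | q | q) a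
      · refine (fs1 p a).trans ?_
        have := mul_le_mul_of_nonneg_right (sel1 a p.1) (by linarith : 0 ≤ m0)
        linarith
      · exact (f31 q a).trans hm1
      · exact (f31 q a).trans hm1
      · exact (f31 q a).trans hm1)
    (by
      rintro (p | q | q | q) a ha
      · show sel a p.1 * lam a p.1 p.2 * g0 p (xs p) = 0
        rw [selA a _ ha]; ring
      · show sel a q.1 * inn a q.2 = 0
        rw [selA a _ ha]; ring
      · show sel a q.1 * inn a q.2 = 0
        rw [selA a _ ha]; ring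
      · show sel a q.1 * inn a q.2 = 0
        rw [selA a _ ha]; ring)
    (by
      rintro (p | q | q | q) a
      · exact Ts0 p a
      · exact Ta0 q a
      · exact Tb0 q a
      · exact Tc0 q a)
    (by
      rintro (p | q | q | q) x
      · exact gs0 p x
      · exact g1p q x
      · exact g2p q x
      · exact g3p q x)
    (by
      rintro (p | q | q | q) x
      · exact gs1 p x
      · exact g1le q x
      · exact g2le q x
      · exact g3le q x)
    (by
      rintro (p | q | q | q)
      · exact Ts2 p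
      · exact Ta2 q
      · exact Tb2 q
      · exact Tc2 q)
    hWt
    (by
      intro a
      rw [Fintype.sum_sum_type, Fintype.sum_sum_type, Fintype.sum_sum_type]
      show ∑ p, fs p a + (∑ q, f3 q a + (∑ q, f3 q a + ∑ q, f3 q a)) ≤ _
      have := hf3sum a
      have := hfssum a
      linarith)
    (by
      intro a x
      rw [Fintype.sum_sum_type, Fintype.sum_sum_type, Fintype.sum_sum_type]
      show ∑ p, fs p a * gs p x + (∑ q, f3 q a * g1 q x + (∑ q, f3 q a * g2 q x +
        ∑ q, f3 q a * g3 q x)) ≤ _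
      have := hfgs a x
      have := hfg3 a x
      linarith)
  have hAc : (0 : ℝ) < A.card := by exact_mod_cast Finset.card_pos.2 ⟨a0, ha0⟩
  have hXc : (0 : ℝ) < Fintype.card X := by exact_mod_cast Fintype.card_pos_iff.2 ⟨x0⟩
  have hpow : (de * (A.card * Fintype.card X)) ^ (2 * r) ≤ _ :=
    pow_le_pow_left₀ (by positivity) htot (2 * r)
  have hfin := (mul_le_mul_of_nonneg_right hpow hAc.le).trans hfam
  have hnn : (0 : ℝ) < (A.card : ℝ) ^ (2 * r) * (Fintype.card X : ℝ) ^ r := by positivity
  refine le_of_mul_le_mul_right ?_ hnn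
  have e1 : de ^ (2 * r) * A.card * (Fintype.card X : ℝ) ^ r *
      ((A.card : ℝ) ^ (2 * r) * (Fintype.card X : ℝ) ^ r) =
      (de * (A.card * Fintype.card X)) ^ (2 * r) * A.card := by
    rw [mul_pow, mul_pow, two_mul, pow_add (Fintype.card X : ℝ)]
    ring
  have e2 : 4 * m0 ^ 2 * ka * W0 * (24 * m0 ^ 2 * S) ^ r *
      ((A.card : ℝ) ^ (2 * r) * (Fintype.card X : ℝ) ^ r) =
      m0 * ka * (4 * m0 * W0) * ((A.card : ℝ) ^ 2 * Fintype.card X * (6 * m0 * (4 * m0 * S))) ^ r := by
    have e3 : (A.card : ℝ) ^ 2 * Fintype.card X * (6 * m0 * (4 * m0 * S)) =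
        (24 * m0 ^ 2 * S) * ((A.card : ℝ) ^ 2 * Fintype.card X) := by ring
    rw [e3, mul_pow (24 * m0 ^ 2 * S), mul_pow ((A.card : ℝ) ^ 2), ← pow_mul]
    ring
  rw [e1, e2]
  exact hfin

theorem pf_ABS (hF : S_FAM) : S_ABS := by
  intro X Y C _ _ _ K ka r inF sat hr hka hK hT1 hT2 M A J cell q sl lam lam0 ls de S F hde hS
    hFF hcov hdis hsl hlam hlam0 hls1 hls0 heq hSz
  have h := aa_gen hF X Y C K ka r inF sat hr hka hK hT1 hT2 M A J cell
    (fun j => Option (Fin (q j))) (fun j => by simp)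
    (fun j o x => match o with
      | none => 1
      | some i => sl j i x)
    (fun a j o => match o with
      | none => lam0 a j
      | some i => lam a j i) ls de S F hde hS hFF hcov hdis
    (by
      intro j o x hx
      cases o with
      | none => exact zero_le_one
      | some i => exact hsl j i x hx)
    (by
      intro a j o
      cases o with
      | none => exact hlam0 a j
      | some i => exact hlam a j i) hls1 hls0
    (by
      intro a ha j hj x hx
      rw [heq a ha j hj x hx, Fintype.sum_option]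
      simp)
    (by
      intro a ha
      refine le_trans (le_of_eq ?_) (hSz a ha)
      exact Finset.sum_congr rfl fun j _ => by simp)
  have hW : ∑ j : Fin M, (Fintype.card (Option (Fin (q j))) : ℝ) = ∑ j, ((q j : ℝ) + 1) :=
    Finset.sum_congr rfl fun j _ => by simp
  rw [hW] at h
  exact h

end Pool.Agent.H33.AV
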