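import Pool.Agent.H91.AV.Targets
import Pool.Agent.H78.KX.JUN

/-! # Adaptive linear programs: the junta decomposition (row JUN) -/

namespace Pool.Agent.H33.AV

open Finset Pool.Agent.H91.AV
open Pool.Agent.H96.KX (psz fac jun PDz prs)
open Pool.Agent.H78.KX (jun_cons jun_pt psz_cons psz_none psz_some)

theorem pf_JUN (hO : S_ONE) (hM : S_MINK) : S_JUN := by
  classical
  intro H U Z _ _ _ _ _ h r c hr hh N
  have hQ : (0 : ℝ) < Fintype.card Z := by exact_mod_cast Fintype.card_pos
  induction N with
  | zero =>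
    intro g hg
    refine ⟨fun _ _ => g (fun i => i.elim0), fun _ _ => hg _, ?_, ?_⟩
    · intro a z
      simp only [rhx, jun, Finset.univ_eq_empty, Finset.prod_empty, mul_one]
      rw [Fintype.sum_unique, Fintype.sum_unique]
      exact congrArg g (Subsingleton.elim _ _)
    · intro lam hlam hc
      have h0 : ∀ τ : Fin 0 → Option Z, psz τ = 0 := fun τ => by simp [psz]
      rw [Fintype.sum_unique, Fintype.sum_unique, Fintype.sum_unique]
      simp only [h0, pow_zero, one_mul]
      have h1 : (fun i => i.elim0 : Fin 0 → U) = default := Subsingleton.elim _ _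
      rw [h1, ← pow_mul]
  | succ N ih =>
    intro g hg
    let V : H → (Fin N → U) → Z → ℝ := fun a0 x' θ =>
      (Fintype.card Z : ℝ) * ∑ x0, if h a0 x0 = θ then g (Fin.cons x0 x') else 0
    have hV0 : ∀ a0 x' θ, 0 ≤ V a0 x' θ := by
      intro a0 x' θ
      refine mul_nonneg hQ.le (Finset.sum_nonneg fun a _ => ?_)
      split_ifs
      · exact hg _
      · exact le_refl _
    have hmin : ∀ (a0 : H) (x' : Fin N → U), ∃ θ0, ∀ θ, V a0 x' θ0 ≤ V a0 x' θ :=
      fun a0 x' => Finite.exists_min (V a0 x')
    choose θ0 hθ0 using hmin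
    let mu : H → (Fin N → U) → ℝ := fun a0 x' => V a0 x' (θ0 a0 x')
    let G : H → Option Z → (Fin N → U) → ℝ := fun a0 o x' =>
      match o with
      | none => mu a0 x'
      | some θ => (V a0 x' θ - mu a0 x') / (Fintype.card Z : ℝ)
    have hG : ∀ a0 o x', 0 ≤ G a0 o x' := by
      intro a0 o x'
      cases o with
      | none => exact hV0 _ _ _
      | some θ => exact div_nonneg (sub_nonneg.2 (hθ0 a0 x' θ)) hQ.le
    have hih := fun a0 o => ih (G a0 o) (hG a0 o)
    choose w' hw0 hw1 hw2 using hih
    have hdec : ∀ (a0 : H) (x' : Fin N → U) (ζ : Z),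
        V a0 x' ζ = ∑ o, G a0 o x' * fac o ζ := by
      intro a0 x' ζ
      rw [Fintype.sum_option]
      show V a0 x' ζ = mu a0 x' * 1 + ∑ θ, (V a0 x' θ - mu a0 x') / (Fintype.card Z : ℝ) *
        (if ζ = θ then (Fintype.card Z : ℝ) else 0)
      rw [Finset.sum_eq_single ζ]
      · rw [if_pos rfl]
        field_simp
        ring
      · intro b _ hb
        rw [if_neg (fun hc => hb hc.symm), mul_zero]
      · intro hc; exact absurd (mem_univ _) hc
    refine ⟨fun a τ => w' (a 0) (τ 0) (Fin.tail a) (Fin.tail τ), fun a τ => hw0 _ _ _ _, ?_, ?_⟩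
    · intro a z
      have hL : rhx h g a z = ∑ x' : Fin N → U, V (a 0) x' (z 0) *
          jun (fun i => some (h (Fin.tail a i) (x' i))) (Fin.tail z) := by
        unfold rhx
        rw [Pool.Agent.H78.KX.sum_cons, Finset.sum_comm]
        refine Finset.sum_congr rfl fun x' _ => ?_
        show _ = ((Fintype.card Z : ℝ) * ∑ x0, if h (a 0) x0 = z 0 then g (Fin.cons x0 x') else 0)
          * _
        rw [Finset.mul_sum, Finset.sum_mul]
        refine Finset.sum_congr rfl fun x0 _ => ?_
        have hj : jun (fun i => some (h (a i) ((Fin.cons x0 x' : Fin (N + 1) → U) i))) z =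
            fac (some (h (a 0) x0)) (z 0) *
              jun (fun i => some (h (Fin.tail a i) (x' i))) (Fin.tail z) := by
          unfold jun
          rw [Fin.prod_univ_succ]
          rfl
        rw [hj]
        show _ * ((if z 0 = h (a 0) x0 then (Fintype.card Z : ℝ) else 0) * _) = _
        by_cases hc : h (a 0) x0 = z 0
        · rw [if_pos hc.symm, if_pos hc]; ring
        · rw [if_neg (fun h' => hc h'.symm), if_neg hc]; ring
      rw [hL]
      calc ∑ x' : Fin N → U, V (a 0) x' (z 0) *
            jun (fun i => some (h (Fin.tail a i) (x' i))) (Fin.tail z)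
          = ∑ x' : Fin N → U, ∑ o, (G (a 0) o x' * fac o (z 0)) *
            jun (fun i => some (h (Fin.tail a i) (x' i))) (Fin.tail z) := by
            refine Finset.sum_congr rfl fun x' _ => ?_
            rw [hdec, Finset.sum_mul]
        _ = ∑ o, fac o (z 0) * rhx h (G (a 0) o) (Fin.tail a) (Fin.tail z) := by
            rw [Finset.sum_comm]
            refine Finset.sum_congr rfl fun o _ => ?_
            unfold rhx
            rw [Finset.mul_sum]
            refine Finset.sum_congr rfl fun x' _ => ?_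
            ring
        _ = ∑ τ : Fin (N + 1) → Option Z,
            w' (a 0) (τ 0) (Fin.tail a) (Fin.tail τ) * jun τ z := by
            rw [Pool.Agent.H78.KX.sum_cons]
            refine Finset.sum_congr rfl fun o _ => ?_
            rw [hw1, Finset.mul_sum]
            refine Finset.sum_congr rfl fun τ _ => ?_
            rw [jun_cons, Fin.cons_zero, Fin.tail_cons]
            ring
    · intro lam hlam hc
      set K : ℝ := (Fintype.card U : ℝ) ^ r + lam * (Fintype.card Z * (2 ^ (2 * r) * c)) with hK
      have hK0 : 0 ≤ K := by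
        rw [hK]; positivity
      set n : (Fin N → U) → ℝ := fun x' => ∑ x0, g (Fin.cons x0 x') ^ 2 with hn
      have hn0 : ∀ x', 0 ≤ n x' := fun x' => Finset.sum_nonneg fun _ _ => sq_nonneg _
      have hone : ∀ x', (∀ a0, mu a0 x' ^ 2 ≤ (Fintype.card U : ℝ) * n x') ∧
          ∀ θ, ∑ a0, (((V a0 x' θ - mu a0 x') / Fintype.card Z) ^ 2) ^ r ≤
            (Fintype.card H : ℝ) * (2 ^ (2 * r) * c) * (n x') ^ r := by
        intro x'
        exact hO H U Z h r c hr hh (fun x0 => g (Fin.cons x0 x')) (fun a0 θ => V a0 x' θ)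
          (fun a0 => mu a0 x') (fun _ => hg _) (fun a0 θ => rfl) (fun a0 θ => hθ0 a0 x' θ)
          (fun a0 => ⟨θ0 a0 x', rfl⟩)
      set S : ℝ := ∑ x', n x' with hS
      have hS0 : 0 ≤ S := Finset.sum_nonneg fun x' _ => hn0 x'
      have hA : ∑ a0, (∑ x', (G a0 none x') ^ 2) ^ r ≤
          (Fintype.card H : ℝ) * ((Fintype.card U : ℝ) ^ r * S ^ r) := by
        calc ∑ a0, (∑ x', (G a0 none x') ^ 2) ^ r
            ≤ ∑ a0 : H, ((Fintype.card U : ℝ) * S) ^ r := by
              refine Finset.sum_le_sum fun a0 _ => pow_le_pow_left₀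
                (Finset.sum_nonneg fun _ _ => sq_nonneg _) ?_ r
              rw [hS, Finset.mul_sum]
              exact Finset.sum_le_sum fun x' _ => (hone x').1 a0
          _ = _ := by
              rw [Finset.sum_const, Finset.card_univ, nsmul_eq_mul, mul_pow]
      have hB : ∀ θ, ∑ a0, (∑ x', (G a0 (some θ) x') ^ 2) ^ r ≤
          (Fintype.card H : ℝ) * (2 ^ (2 * r) * c) * S ^ r := by
        intro θ
        exact hM H (Fin N → U) r ((Fintype.card H : ℝ) * (2 ^ (2 * r) * c))
          (fun x' a0 => (G a0 (some θ) x') ^ 2) n hr (fun _ _ => sq_nonneg _) hn0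
          (fun x' => (hone x').2 θ)
      have hAB : ∑ a0, ∑ o, lam ^ psz (fun _ : Fin 1 => o) * (∑ x', (G a0 o x') ^ 2) ^ r ≤
          K * (Fintype.card H : ℝ) * S ^ r := by
        have h1 : ∑ a0, ∑ o, lam ^ psz (fun _ : Fin 1 => o) * (∑ x', (G a0 o x') ^ 2) ^ r =
            ∑ a0, (∑ x', (G a0 none x') ^ 2) ^ r +
              lam * ∑ θ, ∑ a0, (∑ x', (G a0 (some θ) x') ^ 2) ^ r := by
          rw [Finset.sum_comm (s := (univ : Finset Z)), Finset.mul_sum, ← Finset.sum_add_distrib]
          refine Finset.sum_congr rfl fun a0 _ => ?_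
          rw [Fintype.sum_option, psz_none, pow_zero, one_mul, Finset.mul_sum]
          congr 1
          refine Finset.sum_congr rfl fun θ _ => ?_
          rw [psz_some, pow_one]
        rw [h1]
        have h2 : ∑ θ : Z, ∑ a0, (∑ x', (G a0 (some θ) x') ^ 2) ^ r ≤
            Fintype.card Z * ((Fintype.card H : ℝ) * (2 ^ (2 * r) * c) * S ^ r) := by
          calc _ ≤ ∑ θ : Z, (Fintype.card H : ℝ) * (2 ^ (2 * r) * c) * S ^ r :=
                Finset.sum_le_sum fun θ _ => hB θ
            _ = _ := by rw [Finset.sum_const, Finset.card_univ, nsmul_eq_mul]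
        have h3 := mul_le_mul_of_nonneg_left h2 hlam
        have h4 : K * (Fintype.card H : ℝ) * S ^ r =
            (Fintype.card H : ℝ) * ((Fintype.card U : ℝ) ^ r * S ^ r) +
              lam * (Fintype.card Z * ((Fintype.card H : ℝ) * (2 ^ (2 * r) * c) * S ^ r)) := by
          rw [hK]; ring
        rw [h4]
        exact add_le_add hA h3
      have hSg : S = ∑ x : Fin (N + 1) → U, g x ^ 2 := by
        rw [Pool.Agent.H78.KX.sum_cons (fun x => g x ^ 2), Finset.sum_comm]
      calc ∑ a : Fin (N + 1) → H, ∑ τ : Fin (N + 1) → Option Z,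
            lam ^ psz τ * (w' (a 0) (τ 0) (Fin.tail a) (Fin.tail τ)) ^ (2 * r)
          = ∑ a0, ∑ o, lam ^ psz (fun _ : Fin 1 => o) *
              ∑ a' : Fin N → H, ∑ τ' : Fin N → Option Z,
                lam ^ psz τ' * (w' a0 o a' τ') ^ (2 * r) := by
            rw [Pool.Agent.H78.KX.sum_cons]
            refine Finset.sum_congr rfl fun a0 _ => ?_
            have h1 : ∀ a' : Fin N → H, ∑ τ : Fin (N + 1) → Option Z, lam ^ psz τ *
                (w' ((Fin.cons a0 a' : Fin (N + 1) → H) 0) (τ 0)
                  (Fin.tail (Fin.cons a0 a' : Fin (N + 1) → H)) (Fin.tail τ)) ^ (2 * r) =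
                ∑ o, ∑ τ' : Fin N → Option Z, lam ^ psz (fun _ : Fin 1 => o) *
                  (lam ^ psz τ' * (w' a0 o a' τ') ^ (2 * r)) := by
              intro a'
              rw [Pool.Agent.H78.KX.sum_cons]
              refine Finset.sum_congr rfl fun o _ => Finset.sum_congr rfl fun τ' _ => ?_
              rw [psz_cons, pow_add, Fin.cons_zero, Fin.cons_zero, Fin.tail_cons, Fin.tail_cons]
              ring
            rw [Finset.sum_congr rfl fun a' _ => h1 a', Finset.sum_comm]
            refine Finset.sum_congr rfl fun o _ => ?_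
            rw [Finset.mul_sum]
            refine Finset.sum_congr rfl fun a' _ => ?_
            rw [Finset.mul_sum]
        _ ≤ ∑ a0, ∑ o, lam ^ psz (fun _ : Fin 1 => o) *
              (K ^ N * (Fintype.card H : ℝ) ^ N * (∑ x', (G a0 o x') ^ 2) ^ r) := by
            refine Finset.sum_le_sum fun a0 _ => Finset.sum_le_sum fun o _ => ?_
            exact mul_le_mul_of_nonneg_left (hw2 a0 o lam hlam hc) (pow_nonneg hlam _)
        _ = K ^ N * (Fintype.card H : ℝ) ^ N *
              ∑ a0, ∑ o, lam ^ psz (fun _ : Fin 1 => o) * (∑ x', (G a0 o x') ^ 2) ^ r := by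
            rw [Finset.mul_sum]
            refine Finset.sum_congr rfl fun a0 _ => ?_
            rw [Finset.mul_sum]
            refine Finset.sum_congr rfl fun o _ => ?_
            ring
        _ ≤ K ^ N * (Fintype.card H : ℝ) ^ N * (K * (Fintype.card H : ℝ) * S ^ r) :=
            mul_le_mul_of_nonneg_left hAB (by positivity)
        _ = K ^ (N + 1) * (Fintype.card H : ℝ) ^ (N + 1) *
              (∑ x : Fin (N + 1) → U, g x ^ 2) ^ r := by
            rw [← hSg]
            ring

end Pool.Agent.H33.AV
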