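import Pool.Agent.H91.AV.Targets

/-! # Adaptive linear programs: choice of the parameters (row PARM) -/

namespace Pool.Agent.H33.AV

open Finset Pool.Agent.H91.AV
open Pool.Agent.H1.LP (Clause viol Relax Loc Sys Agree supp ip kk)

/-- the exponents -/
lemma expoA (e1 E L B b n ε ε₁ C r γ : ℝ) (hE : 16 ≤ E) (hL : 3 ≤ L) (hεE : 33 ≤ ε₁ * E)
    (hεL : 33 ≤ ε₁ * L) (hε0 : 0 < ε₁) (hε : ε₁ ≤ ε) (h1 : ε₁ ≤ 1) (hB : 0 ≤ B) (hbB : b ≤ B)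
    (hb : b = (4 * E + 1) * (L + 1)) (hn0 : 0 ≤ n) (hn : n ≤ b * (B + 1)) (hC : C ≤ ε₁ / 8 * r)
    (hr : 1 ≤ r) (hγ : γ = ε₁ / 8) (he : 4 * r * (L - 3) * ((E - 8) * B) ≤ e1) :
    3 * B + (2 * r * B * (8 * E + 3) + B) + C * n + r * (3 * B + (1 - ε) * n) ≤
      e1 - (2 * r + 1) * (γ * n) := by
  have c1 : C * n ≤ ε₁ / 8 * r * n := mul_le_mul_of_nonneg_right hC hn0
  have c2 : r * ((1 - ε) * n) ≤ r * ((1 - ε₁) * n) :=
    mul_le_mul_of_nonneg_left (mul_le_mul_of_nonneg_right (by linarith) hn0) (by linarith)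
  have c3 : (2 * r + 1) * (γ * n) ≤ (3 * r) * (ε₁ / 8 * n) := by
    rw [hγ]
    exact mul_le_mul_of_nonneg_right (by linarith) (by positivity)
  have c4 : n ≤ (b + 1) * B := by
    calc n ≤ b * (B + 1) := hn
      _ = b * B + b := by ring
      _ ≤ b * B + B := by linarith
      _ = (b + 1) * B := by ring
  have c5 : (1 - ε₁ / 2) * n ≤ (1 - ε₁ / 2) * ((b + 1) * B) :=
    mul_le_mul_of_nonneg_left c4 (by linarith)
  have c6 : 16 * E + 13 + (b + 1) * (1 - ε₁ / 2) ≤ 4 * (L - 3) * (E - 8) := by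
    have q1 : 33 * L ≤ ε₁ * E * L := mul_le_mul_of_nonneg_right hεE (by linarith)
    have q2 : 33 * E ≤ ε₁ * L * E := mul_le_mul_of_nonneg_right hεL (by linarith)
    have q3 : ε₁ / 2 * (4 * E * L) ≤ ε₁ / 2 * (b + 1) := by
      refine mul_le_mul_of_nonneg_left ?_ (by linarith)
      rw [hb]
      nlinarith
    have q4 : ε₁ / 2 * (4 * E * L) = ε₁ * E * L + ε₁ * L * E := by ring
    have q5 : (b + 1) * (1 - ε₁ / 2) = b + 1 - ε₁ / 2 * (b + 1) := by ring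
    have q6 : b = 4 * (E * L) + 4 * E + L + 1 := by rw [hb]; ring
    have q7 : 4 * (L - 3) * (E - 8) = 4 * (E * L) - 32 * L - 12 * E + 96 := by ring
    linarith
  have c7 : (16 * E + 13 + (b + 1) * (1 - ε₁ / 2)) * B ≤ 4 * (L - 3) * (E - 8) * B :=
    mul_le_mul_of_nonneg_right c6 hB
  have c8 : r * ((16 * E + 13) * B + (1 - ε₁ / 2) * n) ≤ r * (4 * (L - 3) * (E - 8) * B) := by
    refine mul_le_mul_of_nonneg_left ?_ (by linarith)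
    have : (16 * E + 13 + (b + 1) * (1 - ε₁ / 2)) * B =
        (16 * E + 13) * B + (1 - ε₁ / 2) * ((b + 1) * B) := by ring
    linarith
  have c9 : r * (4 * (L - 3) * (E - 8) * B) = 4 * r * (L - 3) * ((E - 8) * B) := by ring
  have c10 : 4 * B ≤ 4 * B * r := by nlinarith
  have c11 : r * ((16 * E + 13) * B + (1 - ε₁ / 2) * n) =
      4 * B * r + 2 * r * B * (8 * E + 3) + 3 * B * r + ε₁ / 8 * r * n +
        r * ((1 - ε₁) * n) + (3 * r) * (ε₁ / 8 * n) := by ring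
  have c12 : r * (3 * B + (1 - ε) * n) = 3 * B * r + r * ((1 - ε) * n) := by ring
  linarith

theorem pf_PARM : S_PARM := by
  intro C ε hε
  obtain ⟨ε₁, hε₁0, hε₁ε, hε₁1⟩ : ∃ ε₁ : ℝ, 0 < ε₁ ∧ ε₁ ≤ ε ∧ ε₁ ≤ 1 :=
    ⟨min ε 1, lt_min hε one_pos, min_le_left _ _, min_le_right _ _⟩
  obtain ⟨r, hr⟩ : ∃ r : ℕ, C / (ε₁ / 8) + 1 ≤ r := exists_nat_ge _
  obtain ⟨r, hr1, hCr⟩ : ∃ r : ℕ, 1 ≤ r ∧ C ≤ ε₁ / 8 * r := by
    refine ⟨r + 1, by omega, ?_⟩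
    have h1 : C / (ε₁ / 8) ≤ ((r + 1 : ℕ) : ℝ) := by push_cast; linarith
    rw [div_le_iff₀ (by positivity)] at h1
    linarith
  obtain ⟨E0, hE0⟩ : ∃ E : ℕ, 33 / ε₁ ≤ E := exists_nat_ge _
  obtain ⟨E, hEdef⟩ : ∃ E : ℕ, E = E0 + 2 ^ (2 * r + 1) * (2 * r).factorial := ⟨_, rfl⟩
  have hεE : 33 ≤ ε₁ * E := by
    have h1 : (E0 : ℝ) ≤ E := by
      have : E0 ≤ E := by omega
      exact_mod_cast this
    have h2 : 33 / ε₁ ≤ E := hE0.trans h1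
    rw [div_le_iff₀ hε₁0] at h2
    linarith
  have hE33r : (33 : ℝ) ≤ E := by
    have : ε₁ * (E : ℝ) ≤ 1 * E := mul_le_mul_of_nonneg_right hε₁1 (Nat.cast_nonneg _)
    linarith
  have hE33 : 33 ≤ E := by exact_mod_cast hE33r
  have hfac : 2 ^ (2 * r + 1) * (2 * r).factorial ≤ 2 ^ (4 * E) := by
    calc 2 ^ (2 * r + 1) * (2 * r).factorial ≤ E := by omega
      _ ≤ 4 * E := by omega
      _ ≤ 2 ^ (4 * E) := (Nat.lt_two_pow_self (n := 4 * E)).le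
  obtain ⟨b, hb⟩ : ∃ b : ℕ, b = (4 * E + 1) * (E + 1) := ⟨_, rfl⟩
  have hb1 : 1 ≤ b := by
    rw [hb]; exact Nat.one_le_iff_ne_zero.2 (by positivity)
  have hbr : (b : ℝ) = (4 * E + 1) * (E + 1) := by rw [hb]; push_cast; ring
  obtain ⟨K, hK⟩ : ∃ K : ℕ, K = 4 * E * 2 ^ (b * kk E) := ⟨_, rfl⟩
  have hE0' : (0 : ℝ) < E := by linarith
  refine ⟨E, E, r, K, ε₁ / 8, by omega, by omega, hr1, hfac, ?_, by positivity, ?_⟩
  · rw [div_le_iff₀ hE0']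
    have : ε₁ * (E : ℝ) ≤ ε * E := mul_le_mul_of_nonneg_right hε₁ε hE0'.le
    linarith
  refine ⟨b * (24 * K ^ 2 + b + 3 + 2 * kk E), fun n hn => ?_⟩
  obtain ⟨B, hB⟩ : ∃ B : ℕ, B = n / b := ⟨_, rfl⟩
  have hBn : B * b ≤ n := by rw [hB]; exact Nat.div_mul_le_self n b
  have hBge : 24 * K ^ 2 + b + 3 + 2 * kk E ≤ B := by
    rw [hB, Nat.le_div_iff_mul_le (by omega), mul_comm]
    exact hn
  have hBn' : B ≤ n := le_trans (Nat.le_mul_of_pos_right _ (by omega)) hBn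
  have hnB : n < b * (B + 1) := by
    rw [hB]
    exact Nat.lt_mul_div_succ n hb1
  refine ⟨B, by omega, by rw [← hb]; exact hBn, ?_, ?_⟩
  · rw [← hb]
    calc 4 * E * B * 2 ^ (b * kk E) = K * B := by rw [hK]; ring
      _ ≤ K * n := Nat.mul_le_mul_left _ hBn'
  intro W N Y hY hW hWC h
  rw [← hb] at h
  -- reals
  obtain ⟨g, hg⟩ : ∃ g : ℝ, g = (2 : ℝ) ^ (-(ε₁ / 8 * n)) := ⟨_, rfl⟩
  have hg0 : 0 < g := by rw [hg]; positivity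
  obtain ⟨e1, he1⟩ : ∃ e1 : ℕ, e1 = 4 * E * r * (E - 3) * (B - 8 * (B / E)) := ⟨_, rfl⟩
  rw [← hg, ← he1] at h
  rw [← hg]
  have he1' : 4 * (r : ℝ) * ((E : ℝ) - 3) * (((E : ℝ) - 8) * B) ≤ e1 := by
    have d1 : E * (B / E) ≤ B := Nat.mul_div_le B E
    have d2 : (E - 8) * B ≤ E * (B - 8 * (B / E)) := by
      rw [Nat.mul_sub, Nat.sub_mul]
      have : E * (8 * (B / E)) = 8 * (E * (B / E)) := by ring
      rw [this]
      omega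
    have d3 : 4 * r * (E - 3) * ((E - 8) * B) ≤ e1 := by
      rw [he1]
      calc 4 * r * (E - 3) * ((E - 8) * B) ≤ 4 * r * (E - 3) * (E * (B - 8 * (B / E))) :=
            Nat.mul_le_mul_left _ d2
        _ = 4 * E * r * (E - 3) * (B - 8 * (B / E)) := by ring
    have d4 : ((4 * r * (E - 3) * ((E - 8) * B) : ℕ) : ℝ) ≤ (e1 : ℝ) := by exact_mod_cast d3
    rw [Nat.cast_mul, Nat.cast_mul, Nat.cast_mul, Nat.cast_mul, Nat.cast_sub (by omega : 3 ≤ E),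
      Nat.cast_sub (by omega : 8 ≤ E)] at d4
    exact_mod_cast d4
  have hnr : (n : ℝ) ≤ b * (B + 1) := by exact_mod_cast hnB.le
  have hbB : (b : ℝ) ≤ B := by
    have : b ≤ B := by omega
    exact_mod_cast this
  have hr1r : (1 : ℝ) ≤ r := by exact_mod_cast hr1
  have hexp := expoA (e1 : ℝ) E E B b n ε ε₁ C r (ε₁ / 8) (by linarith) (by linarith) hεE hεE hε₁0
    hε₁ε hε₁1 (Nat.cast_nonneg _) hbB hbr (Nat.cast_nonneg _) hnr hCr hr1r rfl he1'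
  -- the constant
  obtain ⟨PP, hPP⟩ : ∃ PP : ℝ, PP = 4 * (E : ℝ) * B * 2 ^ (b * kk E) := ⟨_, rfl⟩
  have hPP0 : 0 ≤ PP := by rw [hPP]; positivity
  have hcon : 24 * PP ^ 2 ≤ 2 ^ (3 * B) := by
    have c1 : 24 * K ^ 2 ≤ 2 ^ B := by
      have := (Nat.lt_two_pow_self (n := B)).le
      omega
    have c2 : B ^ 2 ≤ 2 ^ (2 * B) := by
      have := (Nat.lt_two_pow_self (n := B)).le
      calc B ^ 2 ≤ (2 ^ B) ^ 2 := Nat.pow_le_pow_left this 2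
        _ = 2 ^ (2 * B) := by rw [← pow_mul, mul_comm]
    have c3 : 24 * (4 * E * B * 2 ^ (b * kk E)) ^ 2 ≤ 2 ^ (3 * B) := by
      calc 24 * (4 * E * B * 2 ^ (b * kk E)) ^ 2 = (24 * K ^ 2) * B ^ 2 := by rw [hK]; ring
        _ ≤ 2 ^ B * 2 ^ (2 * B) := Nat.mul_le_mul c1 c2
        _ = 2 ^ (3 * B) := by rw [← pow_add]; congr 1; ring
    rw [hPP]
    exact_mod_cast c3
  have hcon4 : 4 * PP ^ 2 ≤ 2 ^ (3 * B) := by
    have : 0 ≤ PP ^ 2 := sq_nonneg _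
    linarith
  rw [← hPP] at h
  have hD : 4 * PP ^ 2 * 2 ^ (2 * r * B * (8 * E + 3) + B) * (2 : ℝ) ^ (C * n) *
      (24 * PP ^ 2 * (2 : ℝ) ^ ((1 - ε) * n)) ^ r ≤ g ^ (2 * r) * 2 ^ e1 * g := by
    have r1 : (2 : ℝ) ^ (3 * B) * 2 ^ (2 * r * B * (8 * E + 3) + B) * (2 : ℝ) ^ (C * n) *
        ((2 : ℝ) ^ (3 * B) * (2 : ℝ) ^ ((1 - ε) * n)) ^ r =
        (2 : ℝ) ^ (3 * (B : ℝ) + (2 * r * B * (8 * E + 3) + B) + C * n +
          r * (3 * B + (1 - ε) * n)) := by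
      have q0 : (2 : ℝ) ^ (3 * B) = (2 : ℝ) ^ (3 * (B : ℝ)) := by
        rw [← Real.rpow_natCast]; congr 1; push_cast; ring
      have q1 : (2 : ℝ) ^ (2 * r * B * (8 * E + 3) + B) =
          (2 : ℝ) ^ (2 * (r : ℝ) * B * (8 * E + 3) + B) := by
        rw [← Real.rpow_natCast]; congr 1; push_cast; ring
      rw [q0, q1, ← Real.rpow_add two_pos (3 * (B : ℝ)) ((1 - ε) * n), ← Real.rpow_natCast,
        ← Real.rpow_mul (by norm_num),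
        ← Real.rpow_add two_pos, ← Real.rpow_add two_pos, ← Real.rpow_add two_pos]
      congr 1
      ring
    have r2 : g ^ (2 * r) * 2 ^ e1 * g =
        (2 : ℝ) ^ ((e1 : ℝ) - (2 * r + 1) * (ε₁ / 8 * n)) := by
      have q2 : g ^ (2 * r) * 2 ^ e1 * g = 2 ^ e1 * g ^ (2 * r + 1) := by ring
      rw [q2, hg, ← Real.rpow_natCast, ← Real.rpow_natCast, ← Real.rpow_mul (by norm_num),
        ← Real.rpow_add two_pos]
      congr 1
      push_cast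
      ring
    rw [r2]
    calc 4 * PP ^ 2 * 2 ^ (2 * r * B * (8 * E + 3) + B) * (2 : ℝ) ^ (C * n) *
          (24 * PP ^ 2 * (2 : ℝ) ^ ((1 - ε) * n)) ^ r ≤
        (2 : ℝ) ^ (3 * B) * 2 ^ (2 * r * B * (8 * E + 3) + B) * (2 : ℝ) ^ (C * n) *
          ((2 : ℝ) ^ (3 * B) * (2 : ℝ) ^ ((1 - ε) * n)) ^ r := by
          gcongr
      _ = (2 : ℝ) ^ (3 * (B : ℝ) + (2 * r * B * (8 * E + 3) + B) + C * n +
          r * (3 * B + (1 - ε) * n)) := r1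
      _ ≤ (2 : ℝ) ^ ((e1 : ℝ) - (2 * r + 1) * (ε₁ / 8 * n)) :=
          Real.rpow_le_rpow_of_exponent_le one_le_two hexp
  have hfin : g ^ (2 * r) * 2 ^ e1 * N ≤ g ^ (2 * r) * 2 ^ e1 * (g * Y) := by
    calc g ^ (2 * r) * 2 ^ e1 * N = g ^ (2 * r) * N * 2 ^ e1 := by ring
      _ ≤ 4 * PP ^ 2 * 2 ^ (2 * r * B * (8 * E + 3) + B) * W *
          (24 * PP ^ 2 * (2 : ℝ) ^ ((1 - ε) * n)) ^ r * Y := h
      _ ≤ 4 * PP ^ 2 * 2 ^ (2 * r * B * (8 * E + 3) + B) * (2 : ℝ) ^ (C * n) *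
          (24 * PP ^ 2 * (2 : ℝ) ^ ((1 - ε) * n)) ^ r * Y := by gcongr
      _ ≤ (g ^ (2 * r) * 2 ^ e1 * g) * Y := mul_le_mul_of_nonneg_right hD hY
      _ = g ^ (2 * r) * 2 ^ e1 * (g * Y) := by ring
  exact le_of_mul_le_mul_left hfin (by positivity)

end Pool.Agent.H33.AV
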